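import Pool.Agent.H79.BP.Diag
import Pool.Agent.H83.Final

/-!
# Lower bounds of `L'` at the zeros give lower bounds of `L` on circles

Let `L` be an entire function of exponential type with simple zeros and let `0` be an interior
point of the closed convex hull of the singular points of its Borel transform. If
`|L'(λ)| > exp((h(arg λ) - ε)|λ|)` for all large zeros `λ`, for every `ε > 0`, then there are
`P > 0` and radii `τ_k → ∞` with `|L(z)| > exp(P |z|)` on the circles `|z| = τ_k`.
-/

set_option autoImplicit false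
open Filter

namespace Pool.Agent.Results.MP_caad88_an.CirclesFromZeros

open Pool.Agent.H79.BP

/-- `L` is an entire function of exponential type. -/
def IsEntireOfExpType (L : ℂ → ℂ) : Prop :=
  Differentiable ℂ L ∧ ∃ A B : ℝ, ∀ z : ℂ, ‖L z‖ ≤ A * Real.exp (B * ‖z‖)

/-- The indicator `h(φ) = limsup_{r → ∞} r⁻¹ log |L(r e^{iφ})|`, an extended real number
(`log 0 = -∞`). -/
noncomputable def indicator (L : ℂ → ℂ) (φ : ℝ) : EReal :=
  limsup (fun r : ℝ => ((r⁻¹ : ℝ) : EReal)
    * ENNReal.log (ENNReal.ofReal ‖L ((r : ℂ) * Complex.exp ((φ : ℂ) * Complex.I))‖)) atTop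

/-- Condition (a). -/
def CondA (L : ℂ → ℂ) : Prop :=
  ∀ ε : ℝ, 0 < ε → ∃ τ : ℝ, ∀ w : ℂ, L w = 0 → τ < ‖w‖ →
    Real.exp (((indicator L (Complex.arg w)).toReal - ε) * ‖w‖) < ‖deriv L w‖

/-- Condition (b). -/
def CondB (L : ℂ → ℂ) : Prop :=
  ∃ P : ℝ, 0 < P ∧ ∃ τ : ℕ → ℝ, 0 < τ 0 ∧ StrictMono τ ∧ Tendsto τ atTop atTop ∧
    ∀ (k : ℕ) (z : ℂ), ‖z‖ = τ k → Real.exp (P * ‖z‖) < ‖L z‖

/-- Radii from a frequency statement. -/
lemma exists_radii {Q : ℝ → Prop} (h : ∀ R : ℝ, ∃ r : ℝ, R < r ∧ Q r) :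
    ∃ τ : ℕ → ℝ, 0 < τ 0 ∧ StrictMono τ ∧ Tendsto τ atTop atTop ∧ ∀ k, Q (τ k) := by
  choose f hf hQ using h
  let τ : ℕ → ℝ := fun n => Nat.rec (f 0) (fun n t => f (max t n)) n
  have h1 : ∀ n, τ (n + 1) = f (max (τ n) n) := fun n => rfl
  refine ⟨τ, hf 0, ?_, ?_, ?_⟩
  · apply strictMono_nat_of_lt_succ
    intro n
    rw [h1]
    exact lt_of_le_of_lt (le_max_left _ _) (hf _)
  · rw [← tendsto_add_atTop_iff_nat 1]
    refine tendsto_atTop_mono (fun n => ?_) tendsto_natCast_atTop_atTop
    rw [h1]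
    exact (lt_of_le_of_lt (le_max_right _ _) (hf _)).le
  · intro k
    rcases k with _ | k
    · exact hQ 0
    · rw [h1]
      exact hQ _

/-- The norm is a power of `e`, in terms of the extended logarithm. -/
lemma mul_log_lt {r x s : ℝ} (hr : 0 < r) (hx : 0 ≤ x)
    (h : ((r⁻¹ : ℝ) : EReal) * ENNReal.log (ENNReal.ofReal x) < (s : EReal)) :
    x ≤ Real.exp (s * r) := by
  rcases hx.eq_or_lt with hx0 | hx0
  · rw [← hx0]
    positivity
  · rw [ENNReal.log_ofReal_of_pos hx0, ← EReal.coe_mul, EReal.coe_lt_coe_iff] at h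
    rw [← Real.log_le_iff_le_exp hx0]
    rw [inv_mul_lt_iff₀ hr] at h
    linarith

lemma lt_mul_log {r x s : ℝ} (hr : 0 < r) (h : Real.exp (s * r) < x) :
    (s : EReal) ≤ ((r⁻¹ : ℝ) : EReal) * ENNReal.log (ENNReal.ofReal x) := by
  have hx : 0 < x := lt_trans (Real.exp_pos _) h
  rw [ENNReal.log_ofReal_of_pos hx, ← EReal.coe_mul, EReal.coe_le_coe_iff]
  have h1 := (Real.lt_log_iff_exp_lt hx).mpr h
  rw [le_inv_mul_iff₀ hr]
  linarith

theorem result (L : ℂ → ℂ) (hL : IsEntireOfExpType L) (hs : ∀ z : ℂ, L z = 0 → deriv L z ≠ 0)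
    (h0 : (0 : ℂ) ∈ interior (diagram L)) (ha : CondA L) : CondB L := by
  obtain ⟨hd, hg⟩ := hL
  obtain ⟨c, hc, hpos⟩ := positive_of_interior hd hg h0
  have hcpos : ∀ φ : ℝ, ((c : ℝ) : EReal) ≤ indicator L φ := by
    intro φ
    unfold indicator
    refine le_limsup_of_frequently_le ?_ (by isBoundedDefault)
    rw [frequently_atTop]
    intro R
    obtain ⟨r, hr, hLr⟩ := hpos φ (max R 0)
    have hr0 : 0 < r := lt_of_le_of_lt (le_max_right _ _) hr
    exact ⟨r, (lt_of_le_of_lt (le_max_left _ _) hr).le, lt_mul_log hr0 hLr⟩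
  obtain ⟨A, B, hAB⟩ := hg
  have hfin : ∀ φ : ℝ, indicator L φ ≠ ⊤ := by
    intro φ
    have h1 : indicator L φ ≤ ((|A| + |B| : ℝ) : EReal) := by
      unfold indicator
      refine limsup_le_of_le (by isBoundedDefault) ?_
      filter_upwards [eventually_ge_atTop (1 : ℝ)] with r hr
      have hr0 : 0 < r := by linarith
      have h2 := hAB ((r : ℂ) * Complex.exp ((φ : ℂ) * Complex.I))
      rw [norm_mul, Complex.norm_exp_ofReal_mul_I, mul_one, Complex.norm_real, Real.norm_eq_abs,
        abs_of_pos hr0] at h2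
      rcases (norm_nonneg (L ((r : ℂ) * Complex.exp ((φ : ℂ) * Complex.I)))).eq_or_lt with h3 | h3
      · rw [← h3, ENNReal.ofReal_zero, ENNReal.log_zero, EReal.coe_mul_bot_of_pos (by positivity)]
        exact bot_le
      · rw [ENNReal.log_ofReal_of_pos h3, ← EReal.coe_mul, EReal.coe_le_coe_iff]
        have h4 : ‖L ((r : ℂ) * Complex.exp ((φ : ℂ) * Complex.I))‖
            ≤ Real.exp ((|A| + |B|) * r) := by
          refine h2.trans ?_
          have h5 : A ≤ Real.exp (|A|) := by
            have := Real.add_one_le_exp (|A|)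
            have := le_abs_self A
            linarith
          calc A * Real.exp (B * r) ≤ Real.exp (|A|) * Real.exp (B * r) := by
                gcongr
            _ = Real.exp (|A| + B * r) := by rw [← Real.exp_add]
            _ ≤ Real.exp ((|A| + |B|) * r) := by
                apply Real.exp_le_exp.mpr
                have h6 : |A| ≤ |A| * r := le_mul_of_one_le_right (abs_nonneg _) hr
                have h7 : B * r ≤ |B| * r := by
                  gcongr
                  exact le_abs_self _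
                linarith
        have h8 := (Real.log_le_iff_le_exp h3).mpr h4
        rw [inv_mul_le_iff₀ hr0]
        linarith
    exact ne_top_of_le_ne_top (EReal.coe_ne_top _) h1
  have hcoe : ∀ φ : ℝ, ((indicator L φ).toReal : EReal) = indicator L φ := by
    intro φ
    refine EReal.coe_toReal (hfin φ) ?_
    intro h
    have := hcpos φ
    rw [h] at this
    exact EReal.coe_ne_bot _ (le_bot_iff.mp this)
  obtain ⟨P, hP, hcir⟩ := Pool.Agent.H83.main_result L hd ⟨A, B, hAB⟩ hs
    (fun φ => ⟨c, hc, hpos φ⟩) (by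
      intro ε hε
      obtain ⟨τ, hτ⟩ := ha (ε / 2) (by positivity)
      refine ⟨τ, fun w hw hτw => ⟨(indicator L (Complex.arg w)).toReal + ε / 2, ?_, ?_⟩⟩
      · have h1 : indicator L (Complex.arg w)
            < (((indicator L (Complex.arg w)).toReal + ε / 2 : ℝ) : EReal) := by
          conv_lhs => rw [← hcoe (Complex.arg w)]
          rw [EReal.coe_lt_coe_iff]
          linarith
        have h2 := eventually_lt_of_limsup_lt h1 (by isBoundedDefault)
        filter_upwards [h2, eventually_gt_atTop (0 : ℝ)] with r hr hr0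
        exact mul_log_lt hr0 (norm_nonneg _) hr
      · have h1 := hτ w hw hτw
        have h2 : (indicator L (Complex.arg w)).toReal + ε / 2 - ε
            = (indicator L (Complex.arg w)).toReal - ε / 2 := by ring
        rw [h2]
        exact h1)
  obtain ⟨τ, h1, h2, h3, h4⟩ := exists_radii
    (Q := fun r => ∀ z : ℂ, ‖z‖ = r → Real.exp (P * r) < ‖L z‖) hcir
  exact ⟨P, hP, τ, h1, h2, h3, fun k z hz => by rw [hz]; exact h4 k z hz⟩

end Pool.Agent.Results.MP_caad88_an.CirclesFromZeros
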